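import Mathlib

set_option autoImplicit false

open scoped ENNReal Topology
open Filter

namespace Pool.Agent.Results.MP_7ac2f5_co.Both

/-- the space `ℓ_q^d` -/
abbrev Sp (q : ℝ≥0∞) (d : ℕ) := PiLp q (fun _ : Fin d => ℝ)

/-- well-positioned, and every infinitesimal flex is constant -/
def Rigid {V : Type} {q : ℝ≥0∞} [Fact (1 ≤ q)] {d : ℕ} (G : SimpleGraph V) (p : V → Sp q d) : Prop :=
  (∀ u v, G.Adj u v → DifferentiableAt ℝ (fun x : Sp q d => ‖x‖) (p u - p v)) ∧
  ∀ m : V → Sp q d,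
    (∀ u v, G.Adj u v → fderiv ℝ (fun x : Sp q d => ‖x‖) (p u - p v) (m u - m v) = 0) →
    ∀ u v, m u = m v

/-- redundantly rigid -/
def RedRigid {V : Type} {q : ℝ≥0∞} [Fact (1 ≤ q)] {d : ℕ} (G : SimpleGraph V) (p : V → Sp q d) :
    Prop :=
  Rigid G p ∧ ∀ e ∈ G.edgeSet, Rigid (G.deleteEdges {e}) p

/-- the edge set of `G` is the disjoint union of the edge sets of `d` Hamilton cycles -/
def HamUnion {V : Type} [DecidableEq V] (d : ℕ) (G : SimpleGraph V) : Prop :=
  ∃ (a : Fin d → V) (H : ∀ k, G.Walk (a k) (a k)), (∀ k, (H k).IsHamiltonianCycle) ∧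
    (∀ j k, j ≠ k → ∀ e ∈ (H j).edges, e ∉ (H k).edges) ∧ ∀ e ∈ G.edgeSet, ∃ k, e ∈ (H k).edges

lemma line {E : Type} [NormedAddCommGroup E] [NormedSpace ℝ E] {x : E} (h : E)
    (hx : DifferentiableAt ℝ (fun x : E => ‖x‖) x) :
    HasDerivAt (fun t : ℝ => ‖x + t • h‖) (fderiv ℝ (fun x : E => ‖x‖) x h) 0 := by
  have h1 : HasDerivAt (fun t : ℝ => x + t • h) h 0 := by
    simpa using ((hasDerivAt_id (0 : ℝ)).smul_const h).const_add x
  exact HasFDerivAt.comp_hasDerivAt_of_eq (0 : ℝ) hx.hasFDerivAt h1 (by simp)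

lemma nrm (x : Sp ∞ 2) : ‖x‖ = max |x 0| |x 1| := by
  refine le_antisymm ?_ (max_le (PiLp.norm_apply_le x 0) (PiLp.norm_apply_le x 1))
  rw [PiLp.norm_eq_ciSup]
  refine ciSup_le fun i => ?_
  fin_cases i
  · exact le_max_left _ _
  · exact le_max_right _ _

lemma ne_of_diff {x : Sp ∞ 2} (hx : DifferentiableAt ℝ (fun x : Sp ∞ 2 => ‖x‖) x) :
    |x 0| ≠ |x 1| := by
  intro he
  obtain ⟨s, hs, hs'⟩ : ∃ s : ℝ, s * s = 1 ∧ s * x 0 = |x 0| := by
    rcases le_total 0 (x 0) with h | h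
    · exact ⟨1, by simp, by simp [abs_of_nonneg h]⟩
    · exact ⟨-1, by simp, by simp [abs_of_nonpos h]⟩
  have h := line (WithLp.toLp ∞ ![s, 0]) hx
  have h1 := IsLocalMin.hasDerivAt_eq_zero (Eventually.of_forall fun t => by
    simp only [nrm]; simp [he]) h
  have h2 := IsLocalMin.hasDerivAt_eq_zero (Eventually.of_forall fun t => by
    simp only [nrm, Pi.sub_apply, id]
    have a1 : |s| = 1 := by
      have : |s| * |s| = 1 := by rw [← abs_mul, hs, abs_one]
      nlinarith [abs_nonneg s]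
    have a2 : s * (x 0 + t * s) ≤ |x 0 + t * s| := by
      have := le_abs_self (s * (x 0 + t * s))
      rwa [abs_mul, a1, one_mul] at this
    have a3 : s * (x 0 + t * s) = |x 0| + t := by linear_combination hs' + t * hs
    have a4 := le_max_left |x 0 + t * s| |x 0|
    simp [← he]
    linarith) (h.sub (hasDerivAt_id (0 : ℝ)))
  linarith

lemma flat {x : Sp ∞ 2} (hx : DifferentiableAt ℝ (fun x : Sp ∞ 2 => ‖x‖) x) (h : Sp ∞ 2)
    (j k : Fin 2) (hjk : j ≠ k) (hk : |x k| < |x j|) (hj : h j = 0) :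
    fderiv ℝ (fun x : Sp ∞ 2 => ‖x‖) x h = 0 := by
  refine IsLocalMin.hasDerivAt_eq_zero (Eventually.of_forall fun t => ?_) (line h hx)
  have : ‖x‖ = |x j| := by
    rw [nrm]; fin_cases j <;> fin_cases k <;> simp_all [le_of_lt]
  have h2 := PiLp.norm_apply_le (x + t • h) j
  simpa [this, hj] using h2

lemma fin5 (R : Fin 5 → Fin 5 → Prop) (tr : ∀ a b c, R a b → R b c → R a c) (ir : ∀ a, ¬ R a a)
    (h1 : ∀ v a, a ≠ v → ∃ b, b ≠ v ∧ b ≠ a ∧ (R v b ∨ R b v))
    (h2 : ∀ v a, a ≠ v → ∃ b, b ≠ v ∧ b ≠ a ∧ ¬ R v b ∧ ¬ R b v) : False := by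
  simp only [Fin.forall_fin_succ, Fin.exists_fin_succ] at tr ir h1 h2
  simp at tr ir h1 h2
  grind

lemma noRed (p : Fin 5 → Sp ∞ 2) : ¬ RedRigid (⊤ : SimpleGraph (Fin 5)) p := by
  rintro ⟨⟨hw, -⟩, hr⟩
  have key : ∀ (j k : Fin 2), j ≠ k → ∀ v a, a ≠ v → ∃ b, b ≠ v ∧ b ≠ a ∧
      ¬ |p v k - p b k| < |p v j - p b j| := by
    intro j k hjk v a hav
    by_contra hc
    push Not at hc
    have := (hr s(v, a) (by simpa using hav.symm)).2
      (fun w => if w = v then WithLp.toLp ∞ (Pi.single k 1) else 0) (fun u w huw => by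
        simp only [SimpleGraph.deleteEdges_adj, SimpleGraph.top_adj, Set.mem_singleton_iff] at huw
        by_cases hu : u = v
        · subst hu
          refine flat (hw u w (by simpa using huw.1)) _ j k hjk
            (by simpa using hc w (Ne.symm huw.1) fun h => huw.2 (by rw [h])) (by simp [Ne.symm huw.1, hjk])
        by_cases hw' : w = v
        · subst hw'
          refine flat (hw u w (by simpa using huw.1)) _ j k hjk
            (by simpa [abs_sub_comm] using hc u hu fun h => huw.2 (by rw [h, Sym2.eq_swap]))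
            (by simp [hu, hjk])
        simp [hu, hw']) v a
    have := congrArg (fun x : Sp ∞ 2 => x k) this
    simp [hav] at this
  refine fin5 (fun u v => |p u 1 - p v 1| < p v 0 - p u 0) (fun a b c h1 h2 => ?_) (by simp) ?_ ?_
  · have := abs_sub_le (p a 1) (p b 1) (p c 1)
    linarith
  · intro v a hav
    obtain ⟨b, h1, h2, h3⟩ := key 1 0 (by simp) v a hav
    refine ⟨b, h1, h2, ?_⟩
    have h4 := ne_of_diff (hw v b (by simpa using h1.symm))
    simp only [PiLp.sub_apply] at h4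
    have h5 := lt_of_le_of_ne (not_lt.1 h3) h4.symm
    rw [abs_sub_comm (p b 1)]
    rcases lt_abs.1 h5 with h | h
    · exact Or.inr h
    · left; linarith
  · intro v a hav
    obtain ⟨b, h1, h2, h3⟩ := key 0 1 (by simp) v a hav
    refine ⟨b, h1, h2, fun h => h3 ?_, fun h => h3 ?_⟩
    · exact h.trans_le (by rw [abs_sub_comm]; exact le_abs_self _)
    · rw [abs_sub_comm (p b 1)] at h; exact h.trans_le (le_abs_self _)

lemma k5 : HamUnion 2 (⊤ : SimpleGraph (Fin 5)) := by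
  let w1 : (⊤ : SimpleGraph (Fin 5)).Walk 0 0 := .cons (v := 1) (by simp) <| .cons (v := 2) (by simp) <|
    .cons (v := 3) (by simp) <| .cons (v := 4) (by simp) <| .cons (by simp) .nil
  let w2 : (⊤ : SimpleGraph (Fin 5)).Walk 0 0 := .cons (v := 2) (by simp) <| .cons (v := 4) (by simp) <|
    .cons (v := 1) (by simp) <| .cons (v := 3) (by simp) <| .cons (by simp) .nil
  refine ⟨fun _ => 0, ![w1, w2], ?_, ?_, ?_⟩
  · simp [Fin.forall_fin_two, w1, w2, SimpleGraph.Walk.isHamiltonianCycle_iff_isCycle_and_length_eq,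
      SimpleGraph.Walk.isCycle_def, SimpleGraph.Walk.isTrail_def]
  · simp [Fin.forall_fin_two, w1, w2]
  · intro e
    induction e using Sym2.ind with
    | h u v => revert u v; simp [Fin.exists_fin_two, w1, w2]; decide

lemma dom {ι : Type} [Fintype ι] (w a : ι → ℝ) (hw : ∀ c, w c ≠ 0)
    (hi : ∀ c c', |w c| = |w c'| → c = c') (c1 : ι) (h1 : a c1 ≠ 0) :
    ∀ᶠ N : ℕ in atTop, ∑ c, w c ^ (2 * N + 1) * a c ≠ 0 := by
  classical
  obtain ⟨c0, h0, hm⟩ := Finset.exists_max_image (Finset.univ.filter fun c => a c ≠ 0)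
    (fun c => |w c|) ⟨c1, by simpa⟩
  simp only [Finset.mem_filter, Finset.mem_univ, true_and] at h0 hm
  have : Tendsto (fun N : ℕ => ∑ c, (w c / w c0) ^ (2 * N + 1) * a c) atTop
      (𝓝 (∑ c, if c = c0 then a c0 else 0)) := by
    refine tendsto_finsetSum _ fun c _ => ?_
    split_ifs with h
    · subst h; simp [div_self (hw c)]
    by_cases ha : a c = 0
    · simp [ha]
    have hlt : |w c / w c0| < 1 := by
      rw [abs_div, div_lt_one (abs_pos.2 (hw c0))]
      exact lt_of_le_of_ne (hm c ha) fun e => h (hi _ _ e)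
    have := ((tendsto_pow_atTop_nhds_zero_of_abs_lt_one hlt).comp
      (show Tendsto (fun N : ℕ => 2 * N + 1) atTop atTop from
        tendsto_atTop_mono (fun n => by simp only [id]; omega) tendsto_id)).mul_const (a c)
    simpa using this
  simp only [Finset.sum_ite_eq', Finset.mem_univ, if_true] at this
  filter_upwards [this.eventually_ne h0] with N hN h
  refine hN ?_
  simp only [div_pow, div_mul_eq_mul_div, ← Finset.sum_div, h, zero_div]

lemma core {C K : Type} [Fintype C] [Fintype K] [DecidableEq C] (b : C → K → C → ℝ) (t : C → K → ℝ)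
    (h0 : ∀ i k, t i k ≠ 0) (hi : ∀ c c' : C → K, |∏ i, t i (c i)| = |∏ i, t i (c' i)| → c = c')
    (c1 : C → K) (h1 : Matrix.det (Matrix.of fun i => b i (c1 i)) ≠ 0) :
    ∀ᶠ N : ℕ in atTop, Matrix.det (Matrix.of fun i => ∑ k, t i k ^ (2 * N + 1) • b i k) ≠ 0 := by
  filter_upwards [dom (fun c : C → K => ∏ i, t i (c i)) (fun c => Matrix.det (Matrix.of fun i => b i (c i)))
    (fun c => Finset.prod_ne_zero_iff.2 fun i _ => h0 _ _) hi c1 h1] with N hN h
  refine hN ?_
  rw [← h]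
  have := (Matrix.detRowAlternating (R := ℝ) (n := C)).toMultilinearMap.map_sum
    (fun i k => t i k ^ (2 * N + 1) • b i k)
  refine Eq.trans (Finset.sum_congr rfl fun c _ => ?_) this.symm
  rw [MultilinearMap.map_smul_univ, Finset.prod_pow]
  rfl

lemma select {R C : Type} [Fintype C] [DecidableEq C] (ρ : R → C → ℝ)
    (h : ∀ x : C → ℝ, (∀ r, ρ r ⬝ᵥ x = 0) → x = 0) :
    ∃ r : C → R, Function.Injective r ∧ Matrix.det (Matrix.of fun i => ρ (r i)) ≠ 0 := by
  have hs : Submodule.span ℝ (Set.range ρ) = ⊤ := by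
    by_contra hne
    obtain ⟨f, hf, hk⟩ := Submodule.exists_le_ker_of_lt_top _ (lt_top_iff_ne_top.2 hne)
    have e : ∀ y : C → ℝ, f y = y ⬝ᵥ fun i => f (Pi.single i 1) := fun y => by
      rw [LinearMap.pi_apply_eq_sum_univ]
      refine Finset.sum_congr rfl fun i _ => ?_
      rw [smul_eq_mul]; congr 2; ext j; simp [Pi.single_apply, eq_comm]
    have := h _ fun r => (e _).symm.trans (hk (Submodule.subset_span ⟨r, rfl⟩))
    exact hf (LinearMap.ext fun y => by rw [e, this]; simp)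
  obtain ⟨κ, a, ha, hsp, hli⟩ := exists_linearIndependent' ℝ ρ
  let B := Module.Basis.mk hli (by rw [hsp, hs])
  let e := (Pi.basisFun ℝ C).indexEquiv B
  refine ⟨a ∘ e, ha.comp e.injective, ?_⟩
  exact ((Matrix.isUnit_iff_isUnit_det _).1 (Matrix.linearIndependent_rows_iff_isUnit.1
    (hli.comp e e.injective))).ne_zero

open MvPolynomial in
lemma generic {n d : ℕ} (C : Type) [Fintype C] : ∃ x : Fin d × Fin n → ℝ,
    (∀ k u v, u ≠ v → x (k, u) ≠ x (k, v)) ∧
    ∀ r : C → {e : Fin n × Fin n // e.1 < e.2}, Function.Injective r → ∀ c c' : C → Fin d,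
      |∏ i, (x (c i, (r i).1.1) - x (c i, (r i).1.2))| =
        |∏ i, (x (c' i, (r i).1.1) - x (c' i, (r i).1.2))| → c = c' := by
  classical
  let P : (C → {e : Fin n × Fin n // e.1 < e.2}) → (C → Fin d) → MvPolynomial (Fin d × Fin n) ℝ :=
    fun r c => ∏ i, (X (c i, (r i).1.1) - X (c i, (r i).1.2))
  let Q : MvPolynomial (Fin d × Fin n) ℝ :=
    (∏ z : Fin d × Fin n × Fin n with z.2.1 ≠ z.2.2, (X (z.1, z.2.1) - X (z.1, z.2.2))) *
    ∏ z : (C → {e : Fin n × Fin n // e.1 < e.2}) × (C → Fin d) × (C → Fin d) with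
      Function.Injective z.1 ∧ z.2.1 ≠ z.2.2, (P z.1 z.2.1 ^ 2 - P z.1 z.2.2 ^ 2)
  have hQ : Q ≠ 0 := by
    refine mul_ne_zero (Finset.prod_ne_zero_iff.2 fun z hz => sub_ne_zero.2 fun h => ?_)
      (Finset.prod_ne_zero_iff.2 fun ⟨r, c, c'⟩ hz h => ?_)
    · simp only [Finset.mem_filter, Finset.mem_univ, true_and] at hz
      exact hz (Prod.ext_iff.1 (X_injective h)).2
    simp only [Finset.mem_filter, Finset.mem_univ, true_and] at hz
    obtain ⟨i, hi⟩ := Function.ne_iff.1 hz.2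
    have := congrArg (eval fun z : Fin d × Fin n =>
      if z = (c i, (r i).1.1) then (((r i).1.2 : ℕ) : ℝ) - 1 / 2 else
        if z = (c i, (r i).1.2) then (((r i).1.2 : ℕ) : ℝ) - 1 / 2 else ((z.2 : ℕ) : ℝ)) h
    simp only [P, map_sub, map_pow, map_prod, eval_X, map_zero] at this
    rw [Finset.prod_eq_zero (Finset.mem_univ i) (by simp), zero_pow two_ne_zero, zero_sub, neg_eq_zero,
      pow_eq_zero_iff two_ne_zero, Finset.prod_eq_zero_iff] at this
    obtain ⟨j, -, hj⟩ := this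
    have l1 := (r i).2
    have l2 := (r j).2
    have hh : ∀ a b : ℕ, (a : ℝ) - 1 / 2 ≠ b := fun a b e => by
      have : (2 * a : ℝ) = 2 * b + 1 := by linarith
      have : 2 * a = 2 * b + 1 := by exact_mod_cast this
      omega
    have hij : r j ≠ r i ∨ c' j ≠ c i := by
      by_cases e : j = i
      · subst e; exact Or.inr (Ne.symm hi)
      · exact Or.inl fun e' => e (hz.1 e')
    rw [sub_eq_zero] at hj
    rw [Ne, Subtype.ext_iff, Prod.ext_iff] at hij
    split_ifs at hj with a1 a2 a3 a4 a5 a6 a7 a8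
    all_goals first
      | exact hh _ _ hj
      | exact hh _ _ hj.symm
      | (simp only [Prod.mk.injEq, Nat.cast_inj] at *; grind)
  obtain ⟨x, hx⟩ : ∃ x, eval x Q ≠ 0 := by
    by_contra hc
    push Not at hc
    exact hQ (MvPolynomial.funext fun x => by simp [hc])
  simp only [Q, map_mul, map_prod, mul_ne_zero_iff, Finset.prod_ne_zero_iff] at hx
  refine ⟨x, fun k u v h => ?_, fun r hr c c' h => ?_⟩
  · simpa [sub_eq_zero] using hx.1 (k, u, v) (by simpa)
  by_contra hc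
  refine hx.2 (r, c, c') (by simp [hr, hc]) ?_
  simp only [P, map_sub, map_pow, map_prod, eval_X]
  rw [sub_eq_zero, sq_eq_sq_iff_abs_eq_abs, h]

lemma walk1 {V : Type} {G : SimpleGraph V} (f : V → ℝ) {a b : V} (w : G.Walk a b)
    (h : ∀ u v, s(u, v) ∈ w.edges → f u = f v) : ∀ x ∈ w.support, f x = f a := by
  induction w with
  | nil => simp
  | @cons u v _ h' w ih =>
    intro x hx
    rcases List.mem_cons.1 hx with rfl | hx
    · rfl
    · rw [ih (fun u v e => h u v (by simp [e])) x hx, h u v (by simp)]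

lemma walk2 {V : Type} {G : SimpleGraph V} (f : V → ℝ) (e : Sym2 V) {a b : V} (w : G.Walk a b)
    (hn : w.edges.Nodup) (h : ∀ u v, s(u, v) ∈ w.edges → s(u, v) ≠ e → f u = f v) (hab : f a = f b) :
    ∀ u v, s(u, v) ∈ w.edges → f u = f v := by
  induction w with
  | nil => simp
  | @cons a a' b h' w ih =>
    simp only [SimpleGraph.Walk.edges_cons, List.nodup_cons, List.mem_cons] at hn h ⊢
    by_cases he : s(a, a') = e
    · have g : ∀ u v, s(u, v) ∈ w.edges → f u = f v :=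
        fun u v hm => h u v (Or.inr hm) fun e' => hn.1 (he ▸ e' ▸ hm)
      have := walk1 f w g b w.end_mem_support
      rintro u v (hm | hm)
      · rcases Sym2.eq_iff.1 hm with ⟨rfl, rfl⟩ | ⟨rfl, rfl⟩ <;> linarith
      · exact g u v hm
    · have := h a a' (Or.inl rfl) he
      rintro u v (hm | hm)
      · exact h u v (Or.inl hm) (hm ▸ he)
      · exact ih hn.2 (fun u v hm => h u v (Or.inr hm)) (by linarith) u v hm

lemma lq {d : ℕ} (N : ℕ) [Fact (1 ≤ ((2 * N + 2 : ℕ) : ℝ≥0∞))] (x : Sp (2 * N + 2 : ℕ) d)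
    (k : Fin d) (hx : x k ≠ 0) :
    DifferentiableAt ℝ (fun x : Sp (2 * N + 2 : ℕ) d => ‖x‖) x ∧ ∀ h,
      fderiv ℝ (fun x : Sp (2 * N + 2 : ℕ) d => ‖x‖) x h = 0 → ∑ j, x j ^ (2 * N + 1) * h j = 0 := by
  have ev : Even (2 * N + 2) := ⟨N + 1, by ring⟩
  have e : ∀ y : Sp (2 * N + 2 : ℕ) d, ‖y‖ = (∑ j, y j ^ (2 * N + 2)) ^ (1 / ((2 * N + 2 : ℕ) : ℝ)) :=
    fun y => by simp only [PiLp.norm_eq_of_nat _ rfl, Real.norm_eq_abs, ev.pow_abs]
  have hd : DifferentiableAt ℝ (fun x : Sp (2 * N + 2 : ℕ) d => ‖x‖) x := by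
    simp only [e]
    refine DifferentiableAt.rpow_const (by fun_prop) (Or.inl (ne_of_gt ?_))
    exact Finset.sum_pos' (fun j _ => ev.pow_nonneg _) ⟨k, Finset.mem_univ _, ev.pow_pos hx⟩
  refine ⟨hd, fun h hh => ?_⟩
  have h1 := (line h hd).pow (2 * N + 2)
  have h2 : HasDerivAt (fun t : ℝ => ∑ j, (x j + t * h j) ^ (2 * N + 2))
      (∑ j, ((2 * N + 2 : ℕ) : ℝ) * x j ^ (2 * N + 1) * h j) 0 :=
    HasDerivAt.fun_sum fun j _ => by
      simpa using (((hasDerivAt_id (0 : ℝ)).mul_const (h j)).const_add (x j)).fun_pow (2 * N + 2)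
  have h3 : (fun t : ℝ => ‖x + t • h‖) ^ (2 * N + 2) = fun t : ℝ => ∑ j, (x j + t * h j) ^ (2 * N + 2) := by
    funext t
    rw [Pi.pow_apply, e, one_div, Real.rpow_inv_natCast_pow
      (Finset.sum_nonneg fun j _ => ev.pow_nonneg _) (by omega)]
    simp
  rw [h3, hh, mul_zero] at h1
  have := h2.unique h1
  simp only [mul_assoc, ← Finset.mul_sum] at this
  exact (mul_eq_zero.1 this).resolve_left (by positivity)

lemma main {n d : ℕ} [NeZero d] (G : SimpleGraph (Fin n)) (hG : HamUnion d G) (v0 : Fin n)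
    (x : Fin d × Fin n → ℝ) (hx : ∀ k u v, u ≠ v → x (k, u) ≠ x (k, v))
    (hi : ∀ r : Fin d × {v // v ≠ v0} → {e : Fin n × Fin n // e.1 < e.2}, Function.Injective r →
      ∀ c c' : Fin d × {v // v ≠ v0} → Fin d, |∏ i, (x (c i, (r i).1.1) - x (c i, (r i).1.2))| =
        |∏ i, (x (c' i, (r i).1.1) - x (c' i, (r i).1.2))| → c = c') (e : Sym2 (Fin n)) :
    ∀ᶠ N : ℕ in atTop, ∀ m : Fin n → Fin d → ℝ, (∀ u v, G.Adj u v → s(u, v) ≠ e →
      ∑ j, (x (j, u) - x (j, v)) ^ (2 * N + 1) * (m u j - m v j) = 0) → ∀ u, m u = m v0 := by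
  classical
  obtain ⟨a, H, hH, hd, hc⟩ := hG
  choose! col hcol using hc
  let b : Fin n × Fin n → Fin d → Fin d × {v // v ≠ v0} → ℝ := fun z k i =>
    if i.1 = k then (if i.2.1 = z.1 then 1 else 0) - (if i.2.1 = z.2 then 1 else 0) else 0
  have hb : ∀ (m : Fin n → Fin d → ℝ) z k,
      b z k ⬝ᵥ (fun i => m i.2.1 i.1 - m v0 i.1) = m z.1 k - m z.2 k := by
    intro m z k
    have s1 : ∀ u, ∑ w : {v // v ≠ v0}, (if w.1 = u then 1 else 0) * (m w.1 k - m v0 k) = m u k - m v0 k := by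
      intro u
      by_cases hu : u = v0
      · subst hu; rw [Finset.sum_eq_zero fun w _ => by simp [w.2], sub_self]
      · rw [Finset.sum_eq_single ⟨u, hu⟩ (fun w _ h => by simp [show w.1 ≠ u from fun e => h (Subtype.ext e)])
          (by simp)]; simp
    simp only [dotProduct, b, Fintype.sum_prod_type, ite_mul, zero_mul]
    rw [Finset.sum_eq_single k (fun j _ h => by simp [h]) (by simp)]
    simp only [if_true, sub_mul (ite _ _ _), Finset.sum_sub_distrib, s1]
    ring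
  obtain ⟨r, hr, hdet⟩ := select (R := {z : {z : Fin n × Fin n // z.1 < z.2} //
      G.Adj z.1.1 z.1.2 ∧ s(z.1.1, z.1.2) ≠ e}) (fun z => b z.1.1 (col s(z.1.1.1, z.1.1.2))) (fun y hy => by
    let m : Fin n → Fin d → ℝ := fun u k => if h : u = v0 then 0 else y (k, ⟨u, h⟩)
    have hm : y = fun i => m i.2.1 i.1 - m v0 i.1 := by
      funext i; simp [m, i.2.2]
    have h1 : ∀ k u v, u < v → s(u, v) ∈ (H k).edges → s(u, v) ≠ e → m u k = m v k := by
      intro k u v huv hk he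
      have ha := (H k).adj_of_mem_edges hk
      have := hy ⟨⟨(u, v), huv⟩, ha, he⟩
      rw [hm, hb] at this
      have hk' : col s(u, v) = k := by
        by_contra hne
        exact hd _ _ hne _ (hcol _ ha) hk
      simpa [hk', sub_eq_zero] using this
    have h2 : ∀ k u, m u k = m (a k) k := fun k u =>
      walk1 (fun u => m u k) (H k) (walk2 _ e (H k) (hH k).isCycle.isTrail.edges_nodup (fun u v hk he => by
        rcases lt_trichotomy u v with h | h | h
        · exact h1 k u v h hk he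
        · rw [h]
        · exact (h1 k v u h (Sym2.eq_swap ▸ hk) (Sym2.eq_swap ▸ he)).symm) rfl) u ((hH k).mem_support u)
    rw [hm]; funext i
    rw [h2, h2 _ v0, sub_self]; rfl)
  filter_upwards [core (fun i => b (r i).1.1) (fun i k => x (k, (r i).1.1.1) - x (k, (r i).1.1.2))
    (fun i k => sub_ne_zero.2 (hx _ _ _ (r i).1.2.ne))
    (hi (fun i => (r i).1) (Subtype.val_injective.comp hr)) _ hdet] with N hN m hm u
  have := Matrix.eq_zero_of_mulVec_eq_zero hN (v := fun i => m i.2.1 i.1 - m v0 i.1) (by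
    funext i
    rw [Pi.zero_apply, ← hm _ _ (r i).2.1 (r i).2.2]
    simp only [Matrix.mulVec, Matrix.of_apply, sum_dotProduct, smul_dotProduct, hb, smul_eq_mul])
  funext k
  by_cases hu : u = v0
  · rw [hu]
  · exact sub_eq_zero.1 (congrFun this (k, ⟨u, hu⟩))

theorem result :
    (HamUnion 2 (⊤ : SimpleGraph (Fin 5)) ∧
      ∀ p : Fin 5 → Sp ∞ 2, ¬ RedRigid (⊤ : SimpleGraph (Fin 5)) p) ∧
    ∀ (d n : ℕ) (G : SimpleGraph (Fin n)), 2 ≤ d → HamUnion d G →
      ∃ (q : ℝ≥0∞) (_ : Fact (1 ≤ q)), q ≠ 2 ∧ ∃ p : Fin n → Sp q d, RedRigid G p := by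
  refine ⟨⟨k5, noRed⟩, fun d n G hd hG => ?_⟩
  have : NeZero d := ⟨by omega⟩
  have v0 : Fin n := hG.choose 0
  obtain ⟨x, hx, hi⟩ := generic (n := n) (d := d) (Fin d × {v // v ≠ v0})
  obtain ⟨N, hN, h1⟩ := ((eventually_all.2 (main G hG v0 x hx hi)).and (eventually_ge_atTop 1)).exists
  have hq : Fact (1 ≤ ((2 * N + 2 : ℕ) : ℝ≥0∞)) := ⟨by exact_mod_cast (by omega : 1 ≤ 2 * N + 2)⟩
  have key : ∀ (e : Sym2 (Fin n)) (G' : SimpleGraph (Fin n)),
      (∀ u v, G.Adj u v → s(u, v) ≠ e → G'.Adj u v) →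
      Rigid G' (fun u => (WithLp.toLp _ fun k => x (k, u) : Sp (2 * N + 2 : ℕ) d)) := by
    intro e G' hG'
    refine ⟨fun u v h => (lq N _ 0 (sub_ne_zero.2 (hx 0 u v h.ne))).1, fun m hm u v => ?_⟩
    have := hN e (fun u k => m u k) fun u v h he =>
      (lq N _ 0 (sub_ne_zero.2 (hx 0 u v h.ne))).2 _ (hm u v (hG' u v h he))
    ext k
    exact (congrFun (this u) k).trans (congrFun (this v) k).symm
  refine ⟨(2 * N + 2 : ℕ), hq, by exact_mod_cast (by omega : 2 * N + 2 ≠ 2), _,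
    key s(v0, v0) G fun _ _ h _ => h, fun e _ => key e _ fun u v h he => by simp [h, he]⟩

end Pool.Agent.Results.MP_7ac2f5_co.Both
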